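import Mathlib
import Pool.Agent.Helper6_PPX.Goo2
import Pool.Agent.Helper21_PPZ.Goz
import Pool.Agent.Helper3_PQX.Stmts

/-!
# Squad PQX: module GPZ (adapted from `Helper21_PPZ/Goz.lean`)
-/

set_option autoImplicit false
set_option linter.unusedSectionVars false

universe u

namespace Pool.Agent.PQX.H86

open MvPolynomial PGH PGL PPX PPX.H6
open PRS.H64

section Good

variable {k M : Type u} [Field k] [Field M] [Algebra k M] [IsAlgClosed k] [CharZero k]

open Classical in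
/-- the coordinates of a fibre step with two coordinates are good elements of the second kind -/
theorem line_good (hgt : HgbStmt.{u}) (hD : DRatStmt.{u}) {F₀ : Set M} {N₁ N₂ R : ℕ}
    (hN₁ : 20 ≤ N₁) (hN₂ : 20 ≤ N₂) (x : Fin 2 → M) (a : Fin N₁ → k) (b : Fin N₂ → k)
    (A : Fin 2 → Finset k) (hA0 : (A 0 : Set k) = Set.range a)
    (hA1 : (A 1 : Set k) = Set.range b) (G T : Set M) (hT : T.Finite) (c : Fin R → M)
    (ha : Function.Injective a) (hb : Function.Injective b)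
    (F : MvPolynomial (Fin 2) k) (hF : PPZ.ExcA a b F) (hF0 : aeval x F ≠ 0)
    (hc : ∀ r, GoodEl2 k F₀ (c r)) (hc0 : ∀ r, c r ≠ 0)
    (hcT : ∀ t ∈ T, t ∈ G → t ≠ 0 → ∃ r, c r = t) (hG : GermsA G T x A)
    (hxa : ∀ i, x 0 ≠ algebraMap k M (a i)) (hzb : ∀ j, x 1 ≠ algebraMap k M (b j)) :
    ∀ l, GoodEl2 k F₀ (x l) := by
  choose Tb hTb hbT hbB hbR using hc
  set T0 : Set M := ((⋃ r, Tb r) ∪ T) ∪ (Set.range x ∪
    Set.range (fun i => (x 0 - algebraMap k M (a i))⁻¹) ∪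
    Set.range (fun j => (x 1 - algebraMap k M (b j))⁻¹) ∪
    Set.range (fun r => (c r)⁻¹) ∪ {(aeval x F)⁻¹}) with hT0
  have hT0f : T0.Finite := by
    apply Set.Finite.union
    · exact (Set.finite_iUnion (fun i => hTb i)).union hT
    · exact ((((Set.finite_range _).union (Set.finite_range _)).union
        (Set.finite_range _)).union (Set.finite_range _)).union (Set.finite_singleton _)
  have hsub : ∀ i, Tb i ⊆ T0 := fun i => ((Set.subset_iUnion Tb i).trans
    Set.subset_union_left).trans Set.subset_union_left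
  have hTT : T ⊆ T0 := fun t ht => Or.inl (Or.inr ht)
  have hxT : ∀ l, x l ∈ T0 := fun l => Or.inr (Or.inl (Or.inl (Or.inl (Or.inl ⟨l, rfl⟩))))
  have hxiT : ∀ i, (x 0 - algebraMap k M (a i))⁻¹ ∈ T0 := fun i =>
    Or.inr (Or.inl (Or.inl (Or.inl (Or.inr ⟨i, rfl⟩))))
  have hziT : ∀ j, (x 1 - algebraMap k M (b j))⁻¹ ∈ T0 := fun j =>
    Or.inr (Or.inl (Or.inl (Or.inr ⟨j, rfl⟩)))
  have hciT : ∀ r, (c r)⁻¹ ∈ T0 := fun r => Or.inr (Or.inl (Or.inr ⟨r, rfl⟩))
  have hFT : (aeval x F)⁻¹ ∈ T0 := Or.inr (Or.inr rfl)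
  -- the height inequality for every derivation
  have key : ∀ (E : Type u) [Field E] [Algebra k E] [FF k E] (D : Derivation ℤ E E)
      (cp : Place k E → ℕ) (sc : Finset (Place k E)),
      (∀ c : k, D (algebraMap k E c) = 0) → (∀ w : E, D w = 0 → ∃ c : k, algebraMap k E c = w) →
      Bp D cp sc → ∀ (Q : Subalgebra k M), T0 ⊆ (Q : Set M) → ∀ φ : Q →ₐ[k] E,
      ht k (ev φ (x 0)) + ht k (ev φ (x 1)) ≤
        10 * (∑ P ∈ sc, cp P) + 10 * ∑ r, 2 * ht k (ev φ (c r)) := by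
    intro E _ _ _ D cp sc hDk hDc hB Q hTQ φ
    have hch : CharZero E := charZero_of_injective_algebraMap (algebraMap k E).injective
    have hxQ : ∀ l, x l ∈ Q := fun l => hTQ (hxT l)
    have hcv : ∀ r, ev φ (c r) ≠ 0 := fun r =>
      ev_ne_zero φ (hTQ (hsub r (hbT r))) (hTQ (hciT r)) (hc0 r)
    have hpat : ∀ P : Place k E, (∀ r, P.ord (ev φ (c r)) = 0) → (∀ l, P.Ge 0 (ev φ (x l))) →
        ∀ l, ∀ κ ∈ A l, P.ord (ev φ (x l) - algebraMap k E κ) = 1 →
        ∃ m, m ≠ l ∧ ∃ b ∈ A m, P.Ge 1 (ev φ (x m) - algebraMap k E b) := by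
      intro P hP hPx
      refine hG Q (hTT.trans hTQ) hxQ φ P ?_ hPx
      intro t ht htG ht0
      obtain ⟨r, rfl⟩ := hcT t ht htG ht0
      rw [P.ge_iff (hcv r), P.ge_iff (hcv r), hP r]
      exact ⟨le_rfl, by norm_num⟩
    refine hgt D (fun w => ⟨fun h => hDc w h, fun ⟨c, hc⟩ => by rw [← hc]; exact hDk c⟩) cp sc hB
      (ev φ (x 0)) (ev φ (x 1)) a b (fun r => ev φ (c r)) F hN₁ hN₂ ha hb ?_ ?_ ?_ hF ?_
    · intro i h0
      have h1 : x 0 - algebraMap k M (a i) ∈ Q := sub_mem (hxQ 0) (Q.algebraMap_mem _)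
      have h2 := ev_ne_zero φ h1 (hTQ (hxiT i)) (sub_ne_zero.2 (hxa i))
      rw [ev_sub_const φ (hxQ 0), h0, sub_self] at h2
      exact h2 rfl
    · intro j h0
      have h1 : x 1 - algebraMap k M (b j) ∈ Q := sub_mem (hxQ 1) (Q.algebraMap_mem _)
      have h2 := ev_ne_zero φ h1 (hTQ (hziT j)) (sub_ne_zero.2 (hzb j))
      rw [ev_sub_const φ (hxQ 1), h0, sub_self] at h2
      exact h2 rfl
    · intro P hP
      have hge : ∀ (w : E) (κ : k), P.ord (w - algebraMap k E κ) = 1 → P.Ge 0 w := by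
        intro w κ h1
        have h2 : w - algebraMap k E κ ≠ 0 := by
          intro h0
          rw [h0, P.ord_zero] at h1
          exact absurd h1 (by norm_num)
        have h3 : P.Ge 0 (w - algebraMap k E κ) := by
          rw [P.ge_iff h2, h1]
          norm_num
        have h4 := h3.add (P.ge_const κ)
        rwa [sub_add_cancel] at h4
      have h2c : ∀ {m : Fin 2}, m ≠ 0 → m = 1 := by
        intro m hm
        fin_cases m
        · exact absurd rfl hm
        · rfl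
      have h2d : ∀ {m : Fin 2}, m ≠ 1 → m = 0 := by
        intro m hm
        fin_cases m
        · rfl
        · exact absurd rfl hm
      refine ⟨fun i hi hz => ?_, fun j hj hx => ?_⟩
      · obtain ⟨m, hm, κ, hκ, h1⟩ := hpat P hP (by
          intro l
          fin_cases l
          · exact hge _ _ hi
          · exact hz) 0 (a i) (by
            have : a i ∈ (A 0 : Set k) := by rw [hA0]; exact ⟨i, rfl⟩
            exact this) hi
        obtain rfl := h2c hm
        have h3 : κ ∈ (A 1 : Set k) := hκ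
        rw [hA1] at h3
        obtain ⟨j, rfl⟩ := h3
        exact ⟨j, h1⟩
      · obtain ⟨m, hm, κ, hκ, h1⟩ := hpat P hP (by
          intro l
          fin_cases l
          · exact hx
          · exact hge _ _ hj) 1 (b j) (by
            have : b j ∈ (A 1 : Set k) := by rw [hA1]; exact ⟨j, rfl⟩
            exact this) hj
        obtain rfl := h2d hm
        have h3 : κ ∈ (A 0 : Set k) := hκ
        rw [hA0] at h3
        obtain ⟨i, rfl⟩ := h3
        exact ⟨i, h1⟩
    · obtain ⟨h2, h3⟩ := ev_aeval' φ x hxQ F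
      have h4 := ev_ne_zero φ h2 (hTQ hFT) hF0
      rw [h3] at h4
      have h5 : (fun i => ev φ (x i)) = ![ev φ (x 0), ev φ (x 1)] := by
        funext i
        fin_cases i
        · rfl
        · rfl
      rwa [h5] at h4
  -- bounded heights
  have hbdd : ∀ (E : Type u) [Field E] [Algebra k E] [FF k E] (ψ : M → E), ∃ B : ℕ,
      ∀ (Q : Subalgebra k M), T0 ⊆ (Q : Set M) → ∀ φ : Q →ₐ[k] E,
        (∀ t ∈ T0, t ∈ F₀ → ev φ t = ψ t) → ht k (ev φ (x 0)) + ht k (ev φ (x 1)) ≤ B := by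
    intro E _ _ _ ψ
    have hch : CharZero E := charZero_of_injective_algebraMap (algebraMap k E).injective
    obtain ⟨t, htr⟩ := FF.exists_transcendental (L := k) (E := E)
    obtain ⟨δ, hδ⟩ := exists_deriv k E htr
    let D : Derivation ℤ E E := δ.restrictScalars ℤ
    have hDk : ∀ c : k, D (algebraMap k E c) = 0 := fun c => δ.map_algebraMap c
    have hPL : PresL k D := fun c => ⟨0, by rw [hDk, map_zero]⟩
    have hDt : D t ≠ 0 := by
      change δ t ≠ 0
      rw [hδ]; exact one_ne_zero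
    have hconst : ∀ w, D w = 0 → ∃ c : k, algebraMap k E c = w := by
      intro w hw
      apply not_transcendental
      intro hwt
      have hal := FF.isAlgebraic hwt
      exact hDt (deriv_zero_of_isAlgebraic_adjoin (AlgHom.id k E) D hDk hw (hal.isAlgebraic t))
    obtain ⟨cp, sc, hsc, hcp⟩ := bounded_poles (L := k) D hPL
    choose Bd hBd using fun i => hbB i E ψ
    refine ⟨10 * ∑ P ∈ sc, cp P + 10 * ∑ r, 2 * Bd r, fun Q hTQ φ hψ => ?_⟩
    refine (key E D cp sc hDk hconst ⟨hsc, hcp⟩ Q hTQ φ).trans ?_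
    have h5 : ∀ r, ht k (ev φ (c r)) ≤ Bd r := fun r =>
      hBd r Q ((hsub r).trans hTQ) φ (fun t ht => hψ t (hsub r ht))
    have h6 : ∑ r, 2 * ht k (ev φ (c r)) ≤ ∑ r, 2 * Bd r :=
      Finset.sum_le_sum (fun r _ => Nat.mul_le_mul_left 2 (h5 r))
    omega
  -- no rational curves
  have hnr : ∀ (E : Type u) [Field E] [Algebra k E] (z' : E), Transcendental k z' →
      IntermediateField.adjoin k {z'} = ⊤ → ∀ (Q : Subalgebra k M), T0 ⊆ (Q : Set M) →
      ∀ φ : Q →ₐ[k] E, (∀ t ∈ T0, t ∈ F₀ → ∃ c : k, ev φ t = algebraMap k E c) →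
      (∃ c : k, ev φ (x 0) = algebraMap k E c) ∧ ∃ c : k, ev φ (x 1) = algebraMap k E c := by
    intro E _ _ z' hz' htop Q hTQ φ hF'
    obtain ⟨hFF', D, hDk, hDc, hDg⟩ := hD k E z' hz' htop
    have h1 := key E D (fun _ => 0) ∅ hDk hDc ⟨fun _ _ => rfl, fun v => by simpa using hDg v⟩ Q
      hTQ φ
    have h2 : ∀ i, ht k (ev φ (c i)) = 0 := by
      intro i
      obtain ⟨c, hc⟩ := hbR i E z' hz' htop Q ((hsub i).trans hTQ) φ
        (fun t ht ht0 => hF' t (hsub i ht) ht0)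
      rw [hc, ht_const]
    simp only [h2, mul_zero, Finset.sum_const_zero, add_zero] at h1
    obtain ⟨c1, hc1⟩ := ht_eq_zero_iff (k := k) (w := ev φ (x 0)) (by omega)
    obtain ⟨c2, hc2⟩ := ht_eq_zero_iff (k := k) (w := ev φ (x 1)) (by omega)
    exact ⟨⟨c1, hc1⟩, ⟨c2, hc2⟩⟩
  intro l
  refine ⟨T0, hT0f, hxT l, ?_, ?_⟩
  · intro E _ _ _ ψ
    obtain ⟨B, hB⟩ := hbdd E ψ
    refine ⟨B, fun Q hTQ φ hψ => ?_⟩
    have h1 := hB Q hTQ φ hψ
    fin_cases l
    · exact (Nat.le_add_right _ _).trans h1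
    · exact (Nat.le_add_left _ _).trans h1
  · intro E _ _ z' hz' htop Q hTQ φ hF'
    have h1 := hnr E z' hz' htop Q hTQ φ hF'
    fin_cases l
    · exact h1.1
    · exact h1.2

end Good

/-- GPZ -/
theorem gpz (hgt : HgbStmt.{u}) (htx : PPZ.HxxStmt.{u}) : GpzStmt.{u} := by
  classical
  obtain ⟨N₀, hN₀, hJ⟩ := htx
  refine ⟨N₀, ?_⟩
  intro k M _ _ _ _ _ F₀ G T x A hA hind hT hGG hG
  have hEx : ∀ l, ∃ a : Fin (A l).card → k, Function.Injective a ∧
      (A l : Set k) = Set.range a := by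
    intro l
    refine ⟨fun i => ((A l).equivFin.symm i : k), ?_, ?_⟩
    · intro i j hij
      exact (A l).equivFin.symm.injective (Subtype.ext hij)
    · ext κ
      constructor
      · intro hκ
        exact ⟨(A l).equivFin ⟨κ, hκ⟩, by simp⟩
      · rintro ⟨i, rfl⟩
        exact ((A l).equivFin.symm i).2
  obtain ⟨a, ha, hAa⟩ := hEx 0
  obtain ⟨b, hb, hAb⟩ := hEx 1
  obtain ⟨F, hF0, hF⟩ := hJ a b (hA 0) (hA 1) ha hb
  have hne0 : ∀ P : MvPolynomial (Fin 2) k, P ≠ 0 → aeval x P ≠ 0 := by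
    intro P hP h0
    exact hP ((algebraicIndependent_iff.1 hind) P h0)
  have hne : ∀ (l : Fin 2) (κ : k), x l ≠ algebraMap k M κ := by
    intro l κ h0
    apply hne0 (X l - C κ)
    · intro h1
      have h2 := congrArg (coeff (Finsupp.single l 1)) h1
      have h3 : ¬ (0 : Fin 2 →₀ ℕ) = Finsupp.single l 1 := by
        intro h3
        have h4 := congrArg (fun f => f l) h3
        simp at h4
      rw [coeff_sub, coeff_X, if_pos rfl, coeff_C, if_neg h3, coeff_zero, sub_zero] at h2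
      exact one_ne_zero h2
    · rw [map_sub, aeval_X, aeval_C, h0, sub_self]
  -- the nonzero elements of `T` in `G`
  have hS : {t | t ∈ T ∧ t ∈ G ∧ t ≠ 0}.Finite := hT.subset fun t ht => ht.1
  set S := hS.toFinset with hSdef
  have hSm : ∀ t, t ∈ S ↔ t ∈ T ∧ t ∈ G ∧ t ≠ 0 := fun t => by
    rw [hSdef, Set.Finite.mem_toFinset]; rfl
  let c : Fin S.card → M := fun r => (S.equivFin.symm r : M)
  have hcS : ∀ r, c r ∈ S := fun r => (S.equivFin.symm r).2
  exact line_good (F₀ := F₀) hgt PGL.H13.dRat (hN₀.trans (hA 0)) (hN₀.trans (hA 1)) x a b A hAa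
    hAb G T hT c ha hb F hF (hne0 F hF0) (fun r => hGG _ ((hSm _).1 (hcS r)).2.1)
    (fun r => ((hSm _).1 (hcS r)).2.2)
    (fun t ht htG ht0 => ⟨S.equivFin ⟨t, (hSm t).2 ⟨ht, htG, ht0⟩⟩, by simp [c]⟩)
    @hG (fun i => hne 0 (a i)) (fun j => hne 1 (b j))

end Pool.Agent.PQX.H86
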